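import Pool.Agent.W206.YP.Stm

/-!
The system satisfies the gates (`S_YG`).
-/

set_option autoImplicit false

namespace Pool.Agent.W73.YP.YG

open MvPolynomial UpperHalfPlane H294ZP Pool.Agent.W206.CT Pool.Agent.W206.YP

section

variable {ι E : Type} [Fintype ι] [Fintype E] [DecidableEq ι] [DecidableEq E]
  {D : ℕ} {r : E → ℕ}

theorem ch_spec (e : {e : Ex ι D // ∃ b, 0 < (e.1 b : ℕ)}) : 0 < (e.1.1 (ch e) : ℕ) :=
  Classical.choose_spec e.2

theorem mo_ex0 (w lam : ι → ℂ) (μ : ℂ) : mo (D := D) w lam μ ex0 = μ := by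
  unfold mo ex0
  simp

theorem val_nb (ε : ∀ l, Fin (r l) → ℤ) (M : ∀ l, Fin (r l) → Ex ι D) (w lam : ι → ℂ) (μ : ℂ)
    (nu : E → ℂ) (b : Bs ι) : val ε M w lam μ nu (nb b) = xb w lam μ b := by
  rcases b with _ | (i | i)
  · exact mo_ex0 w lam μ
  · rfl
  · rfl

theorem mo_pre (w lam : ι → ℂ) (μ : ℂ) (e : {e : Ex ι D // ∃ b, 0 < (e.1 b : ℕ)}) :
    mo w lam μ e.1 = mo w lam μ (pre e) * xb w lam μ (ch e) := by
  have h1 : ∏ b, xb w lam μ b ^ (e.1.1 b : ℕ) =
      (∏ b, xb w lam μ b ^ ((pre e).1 b : ℕ)) * xb w lam μ (ch e) := by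
    rw [← Finset.mul_prod_erase Finset.univ _ (Finset.mem_univ (ch e)),
      ← Finset.mul_prod_erase Finset.univ (fun b => xb w lam μ b ^ ((pre e).1 b : ℕ))
        (Finset.mem_univ (ch e))]
    have h2 : ((pre e).1 (ch e) : ℕ) = (e.1.1 (ch e) : ℕ) - 1 := by
      unfold pre
      simp
    have h3 : ∀ b ∈ Finset.univ.erase (ch e), xb w lam μ b ^ ((pre e).1 b : ℕ) =
        xb w lam μ b ^ (e.1.1 b : ℕ) := by
      intro b hb
      have hb' := Finset.ne_of_mem_erase hb
      unfold pre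
      simp [hb']
    rw [Finset.prod_congr rfl h3, h2]
    have h4 := ch_spec e
    obtain ⟨k, hk⟩ : ∃ k, (e.1.1 (ch e) : ℕ) = k + 1 := ⟨(e.1.1 (ch e) : ℕ) - 1, by omega⟩
    rw [hk, Nat.add_sub_cancel, pow_succ]
    ring
  unfold mo
  rw [h1, mul_assoc]

end

theorem main : S_YG := by
  intro ι E _ _ _ _ D r ε M w lam μ nu hε hsum g
  rcases g with i | e | ⟨l, j⟩
  · rfl
  · show val ε M w lam μ nu (mn e.1) = val ε M w lam μ nu (mn (pre e)) *
      val ε M w lam μ nu (nb (ch e))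
    rw [val_nb]
    exact mo_pre w lam μ e
  · show val ε M w lam μ nu (if ε l j = 1 then ps l (nx j) else ps l j) =
      val ε M w lam μ nu (if ε l j = 1 then ps l j else ps l (nx j)) +
      val ε M w lam μ nu (mn (M l j))
    have hp := psum_nx (tm ε M w lam μ l) (hsum l) j
    rcases hε l j with h | h
    · have ht : tm ε M w lam μ l j = mo w lam μ (M l j) := by
        unfold tm
        rw [h]
        simp
      rw [if_pos h, if_pos h]
      show nu l + psum (tm ε M w lam μ l) (nx j) = nu l + psum (tm ε M w lam μ l) j +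
        mo w lam μ (M l j)
      rw [hp, ht]
      ring
    · have ht : tm ε M w lam μ l j = -mo w lam μ (M l j) := by
        unfold tm
        rw [h]
        simp
      have h1 : ¬ ε l j = 1 := by rw [h]; decide
      rw [if_neg h1, if_neg h1]
      show nu l + psum (tm ε M w lam μ l) j = nu l + psum (tm ε M w lam μ l) (nx j) +
        mo w lam μ (M l j)
      rw [hp, ht]
      ring

end Pool.Agent.W73.YP.YG
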